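/-
helper74. Explicit form of the induction of Pool/Agent/H20/MAD/IND.lean.
-/
import Pool.Agent.H20.MAD.IND

set_option autoImplicit false

namespace Pool.MAD

open Finset
open scoped Classical

/-- the factor lost in one level -/
noncomputable def bx (K : ℕ) : ℝ := ((1 / (4000 * (K : ℝ))) ^ 2 / 64) ^ 4 / 80000

theorem t_indx (hLVL : LVLStmt) (hRIC : RICStmt) (hGUA : GUAStmt) (hSTP : STPStmt)
    (hMIN : MINStmt) (hHIL : HILStmt) (hWLK : WLKStmt) (K : ℕ) (ε : ℝ) (hK : 1 ≤ K) (hε : 0 < ε) :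
    ∀ j : ℕ, 1 ≤ j → j ≤ K →
    ∀ (V : Type) [Fintype V] (N : V → Finset V) (n d : ℕ) (A s : ℝ) (B U : Finset V) (T : ℕ),
      (∀ x, (N x).Nonempty) → (∀ x, d ≤ (N x).card) → 1 ≤ n → T ≤ n → B ⊆ U →
      0 < A → 0 < s → A * s ≤ 1 → s ≤ min (1 / (256 * (K : ℝ) ^ 2)) (ε / (32 * K)) →
      32 * (8 / bx K ^ 2) ^ j ≤ d * s →
      (∃ v ∈ B, s ≤ En n A (mv N n A B T v)) →
      (∀ u ∈ B, ∀ T' ≤ T, ∀ Q : List V → ℝ, Pln (Wk N B T' u) Q →
        En n A (cv (Wk N B T' u) Q) ≤ s →
        ∑ w ∈ (Wk N B T' u).filter (fun w => lst u w ∉ U), Q w ≤ 1 / 16) →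
      ∃ f : Fin j → V, Function.Injective f ∧ (∀ i, f i ∈ U) ∧
        ∀ i i' : Fin j, i < i' → Low N ε (f i) (f i') := by
  have hK' : (1 : ℝ) ≤ K := by exact_mod_cast hK
  obtain ⟨τ, hτ⟩ : ∃ τ : ℝ, τ = 1 / (4000 * K) := ⟨_, rfl⟩
  have hτ0 : 0 < τ := by rw [hτ]; positivity
  have hτK : K * τ = 1 / 4000 := by rw [hτ]; field_simp
  have hτ1 : τ ≤ 1 / 4000 := by nlinarith
  obtain ⟨g, hg⟩ : ∃ g : ℝ, g = τ ^ 2 / 64 := ⟨_, rfl⟩
  have hg0 : 0 < g := by rw [hg]; positivity
  have hgτ : g ≤ τ := by rw [hg]; nlinarith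
  have hg1 : g ≤ 1 := by linarith
  obtain ⟨a, ha⟩ : ∃ a : ℝ, a = τ ^ 2 / 128 := ⟨_, rfl⟩
  have ha0 : 0 < a := by rw [ha]; positivity
  have hag : g = 2 * a := by rw [hg, ha]; ring
  have ha1 : a ≤ 1 := by linarith
  obtain ⟨b, hb⟩ : ∃ b : ℝ, b = g ^ 4 / 80000 := ⟨_, rfl⟩
  have hb0 : 0 < b := by rw [hb]; positivity
  have hba : b ≤ a := by
    have h1 : g ^ 4 ≤ g := by
      have : g ^ 3 ≤ 1 := pow_le_one₀ hg0.le hg1
      calc g ^ 4 = g ^ 3 * g := by ring
        _ ≤ 1 * g := mul_le_mul_of_nonneg_right this hg0.le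
        _ = g := one_mul g
    rw [hb]
    linarith
  have hb1 : b ≤ 1 := hba.trans ha1
  have hb2 : b ^ 2 ≤ 1 := pow_le_one₀ hb0.le hb1
  have hsτ : Real.sqrt τ ^ 2 = τ := Real.sq_sqrt hτ0.le
  have hsτ0 : 0 < Real.sqrt τ := Real.sqrt_pos.2 hτ0
  have hsτ1 : Real.sqrt τ ≤ 1 := by
    rw [Real.sqrt_le_one]
    linarith
  have hgs : g ≤ Real.sqrt τ := by nlinarith
  obtain ⟨g', hg'⟩ : ∃ g' : ℝ, g' = g + 10 * Real.sqrt τ := ⟨_, rfl⟩
  have hg'0 : 0 < g' := by rw [hg']; positivity
  have hg'1 : g' ^ 2 ≤ 121 * τ := by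
    have h1 : g' ≤ 11 * Real.sqrt τ := by rw [hg']; linarith
    calc g' ^ 2 ≤ (11 * Real.sqrt τ) ^ 2 := pow_le_pow_left₀ hg'0.le h1 2
      _ = 121 * τ := by rw [mul_pow, hsτ]; norm_num
  obtain ⟨smax, hsm⟩ : ∃ smax : ℝ, smax = min (1 / (256 * (K : ℝ) ^ 2)) (ε / (32 * K)) :=
    ⟨_, rfl⟩
  have hsm0 : 0 < smax := by rw [hsm]; exact lt_min (by positivity) (by positivity)
  have hsm1 : smax ≤ 1 / (256 * (K : ℝ) ^ 2) := by rw [hsm]; exact min_le_left _ _
  have hsm2 : smax ≤ ε / (32 * K) := by rw [hsm]; exact min_le_right _ _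
  have hbx : bx K = b := by rw [hb, hg, hτ]; rfl
  rw [hbx, ← hsm]
  obtain ⟨D, hD⟩ : ∃ D : ℕ → ℝ, ∀ j, D j = 32 * (8 / b ^ 2) ^ j := ⟨_, fun _ => rfl⟩
  simp only [← hD]
  have hD1 : ∀ j, 32 ≤ D j := by
    intro j
    rw [hD]
    have h1 : (1 : ℝ) ≤ 8 / b ^ 2 := by
      rw [le_div_iff₀ (by positivity)]; linarith
    have := one_le_pow₀ h1 (n := j)
    linarith
  intro j hj1
  induction j, hj1 using Nat.le_induction with
  | base =>
    intro _ V _ N n d A s B U T hne hdeg hn hT hBU hA hs hAs hss hds hrich hguard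
    obtain ⟨v, hv, -⟩ := hrich
    refine ⟨fun _ => v, fun x y _ => Subsingleton.elim x y, fun _ => hBU hv, ?_⟩
    intro i i' h
    exact absurd (Subsingleton.elim i i') (ne_of_lt h)
  | succ j hj1 ih =>
    intro hjK V _ N n d A s B U T hne hdeg hn hT hBU hA hs hAs hss hds hrich hguard
    have hjK' : j ≤ K := by omega
    have hjKr : (j : ℝ) ≤ K := by exact_mod_cast hjK'
    have hd0 : 0 < (d : ℝ) := by
      have h1 := (hD1 (j + 1)).trans hds
      by_contra h2
      push Not at h2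
      nlinarith
    obtain ⟨A', hA'⟩ : ∃ A' : ℝ, A' = 1 / s := ⟨_, rfl⟩
    have hA'0 : 0 < A' := by rw [hA']; positivity
    have hAA' : A ≤ A' := by rw [hA', le_div_iff₀ hs]; exact hAs
    have hA's : A' * s = 1 := by rw [hA']; field_simp
    obtain ⟨ρ, hρ⟩ : ∃ ρ : ℝ, ρ = s / 8 := ⟨_, rfl⟩
    have hρ0 : 0 < ρ := by rw [hρ]; positivity
    have hWne := (hWLK V N hne).1
    obtain ⟨hE0, -, -, -, -, -, -, -, -, -⟩ := hHIL V n A' hA'0.le
    obtain ⟨v₀, hv₀, hsv₀⟩ := hrich
    -- the first horizon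
    have hex : ∃ T' : ℕ, ∃ z ∈ B, ρ ≤ En n A' (mv N n A' B T' z) := by
      refine ⟨T, v₀, hv₀, ?_⟩
      have h1 : En n A (mv N n A' B T v₀) ≤ En n A' (mv N n A' B T v₀) :=
        (hHIL V n A hA.le).2.2.2.2.2.2.2.2.2 A' _ hAA'
      have h2 : En n A (mv N n A B T v₀) ≤ En n A (mv N n A' B T v₀) := by
        rw [mv_of_mem hv₀, mv_of_mem hv₀]
        exact (hMIN V n A _ hA.le (hWne B T v₀)).2 _ (hMIN V n A' _ hA'0.le (hWne B T v₀)).1
      rw [hρ]; linarith
    have hT'T : Nat.find hex ≤ T := Nat.find_min' hex ⟨v₀, hv₀, by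
      have h1 : En n A (mv N n A' B T v₀) ≤ En n A' (mv N n A' B T v₀) :=
        (hHIL V n A hA.le).2.2.2.2.2.2.2.2.2 A' _ hAA'
      have h2 : En n A (mv N n A B T v₀) ≤ En n A (mv N n A' B T v₀) := by
        rw [mv_of_mem hv₀, mv_of_mem hv₀]
        exact (hMIN V n A _ hA.le (hWne B T v₀)).2 _ (hMIN V n A' _ hA'0.le (hWne B T v₀)).1
      rw [hρ]; linarith⟩
    obtain ⟨z₀, hz₀, hz₀ρ⟩ := Nat.find_spec hex
    have hmin := fun {m : ℕ} (hm : m < Nat.find hex) => Nat.find_min hex hm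
    generalize Nat.find hex = T' at hT'T hz₀ρ hmin
    obtain ⟨T'', rfl⟩ : ∃ T'', T' = T'' + 1 := by
      cases T' with
      | zero => rw [En_mv_zero] at hz₀ρ; linarith
      | succ m => exact ⟨m, rfl⟩
    have hsmall : ∀ z ∈ B, En n A' (mv N n A' B T'' z) ≤ ρ := by
      intro z hz
      by_contra h
      push Not at h
      exact hmin (Nat.lt_succ_self _) ⟨z, hz, h.le⟩
    -- the maximiser
    obtain ⟨v, hv, hvmax⟩ := Finset.exists_max_image B
      (fun z => En n A' (mv N n A' B (T'' + 1) z)) ⟨z₀, hz₀⟩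
    obtain ⟨r, hr⟩ : ∃ r : ℝ, r = En n A' (mv N n A' B (T'' + 1) v) := ⟨_, rfl⟩
    have hρr : ρ ≤ r := by rw [hr]; exact hz₀ρ.trans (hvmax z₀ hz₀)
    have hr0 : 0 < r := hρ0.trans_le hρr
    have hr4 : r ≤ 4 * ρ := by
      have hd1 : 0 < d := by exact_mod_cast hd0
      have h1 := hSTP V N n d A' ρ B T'' v hne hA'0 hρ0.le (by rw [hρ]; nlinarith) hd1
        (hdeg v) hv hsmall
      have h2 : 2 / Real.sqrt d ≤ Real.sqrt ρ := by
        rw [div_le_iff₀ (Real.sqrt_pos.2 hd0), ← Real.sqrt_mul hρ0.le]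
        rw [show (2 : ℝ) = Real.sqrt 4 by
          rw [show (4 : ℝ) = 2 ^ 2 by norm_num, Real.sqrt_sq (by norm_num)]]
        apply Real.sqrt_le_sqrt
        have h3 := (hD1 (j + 1)).trans hds
        rw [hρ]; linarith
      have h3 : nm n A' (mv N n A' B (T'' + 1) v) ≤ 2 * Real.sqrt ρ := by linarith
      have h4 : r = nm n A' (mv N n A' B (T'' + 1) v) ^ 2 := by
        rw [hr]; unfold nm; rw [Real.sq_sqrt (hE0 _)]
      have h5 : 0 ≤ nm n A' (mv N n A' B (T'' + 1) v) := Real.sqrt_nonneg _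
      rw [h4]
      calc _ ≤ (2 * Real.sqrt ρ) ^ 2 := pow_le_pow_left₀ h5 h3 2
        _ = 4 * ρ := by rw [mul_pow, Real.sq_sqrt hρ0.le]; norm_num
    have hrs : r ≤ s / 2 := by rw [hρ] at hr4; linarith
    have h2Ar : 2 * A' * r ≤ 1 := by nlinarith
    have hvmax' : ∀ z ∈ B, En n A' (mv N n A' B (T'' + 1) z) ≤ r := by
      intro z hz; rw [hr]; exact hvmax z hz
    -- the next level
    obtain ⟨s', hs'⟩ : ∃ s' : ℝ, s' = b ^ 2 * r := ⟨_, rfl⟩
    have hs'0 : 0 < s' := by rw [hs']; positivity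
    have hs'r : s' ≤ r := by rw [hs']; nlinarith
    have hric := hRIC V N n A' g B (T'' + 1) v hne hA'0 hv (by rw [← hr]; exact hr0)
      (by rw [← hr]; exact h2Ar) (by intro z hz; rw [← hr]; exact hvmax' z hz) hg0 hg1
    rw [← hr] at hric
    have hvU : v ∈ Ug N n A' B (T'' + 1) v g := by
      unfold Ug
      rw [Finset.mem_filter]
      refine ⟨hv, ?_⟩
      have h1 : nm n A' (fun y => mv N n A' B (T'' + 1) v y - mv N n A' B (T'' + 1) v y) = 0 := by
        unfold nm En
        simp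
      rw [h1]
      exact mul_nonneg hg0.le (Real.sqrt_nonneg _)
    obtain ⟨f, hf, hfU, hfL⟩ := ih hjK' V N n d (2 * A') s' (Ug N n A' B (T'' + 1) v g)
      (Ug N n A' B (T'' + 1) v g') (T'' + 1) hne hdeg hn (hT'T.trans hT)
      (by
        intro z hz
        unfold Ug at hz ⊢
        rw [Finset.mem_filter] at hz ⊢
        refine ⟨hz.1, hz.2.trans ?_⟩
        refine mul_le_mul_of_nonneg_right ?_ (Real.sqrt_nonneg _)
        rw [hg']; linarith)
      (by linarith) hs'0
      (by
        have : A' * s' ≤ A' * r := mul_le_mul_of_nonneg_left hs'r hA'0.le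
        linarith)
      (by linarith)
      (by
        have h1 : D (j + 1) = D j * (8 / b ^ 2) := by rw [hD, hD, pow_succ]; ring
        have h2 : D j = D (j + 1) * (b ^ 2 / 8) := by rw [h1]; field_simp
        rw [h2]
        calc D (j + 1) * (b ^ 2 / 8) ≤ (d * s) * (b ^ 2 / 8) :=
              mul_le_mul_of_nonneg_right hds (by positivity)
          _ = d * (b ^ 2 * ρ) := by rw [hρ]; ring
          _ ≤ d * s' := by
              refine mul_le_mul_of_nonneg_left ?_ hd0.le
              rw [hs']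
              exact mul_le_mul_of_nonneg_left hρr (by positivity))
      ⟨v, hvU, by rw [hs', hb]; exact hric⟩
      (by
        intro u hu T₁ hT₁ Q hQ hQe
        have h1 := hGUA V N n A' g a τ B T₁ (T'' + 1) v u Q hne hA'0 hv
          (by rw [← hr]; exact hr0) (by rw [← hr]; exact h2Ar)
          (by intro z hz; rw [← hr]; exact hvmax' z hz) hg0 hg1 ha0.le ha1 hτ0
          (by linarith) (by rw [ha, hg]; nlinarith) hT₁ hu hQ
          (by
            rw [← hr]
            refine hQe.trans ?_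
            rw [hs']
            exact mul_le_mul_of_nonneg_right (pow_le_pow_left₀ hb0.le hba 2) hr0.le)
        rw [← hg'] at h1
        refine h1.trans ?_
        rw [hg, ha]
        rw [div_le_div_iff₀ (by positivity) (by norm_num)]
        ring_nf
        exact le_refl _)
    -- the new point
    obtain ⟨y, hyU, hyne, hyL⟩ := hLVL V N n A' r g' ε (1 / 16) B U (T'' + 1) v j f hne hA'0 hn
      (hT'T.trans hT) hv hr hr0 hvmax' hε hBU
      (by
        refine hguard v hv (T'' + 1) hT'T _ (hMIN V n A' _ hA'0.le (hWne B _ v)).1 ?_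
        rw [← mv_of_mem hv]
        have h1 : En n A (mv N n A' B (T'' + 1) v) ≤ En n A' (mv N n A' B (T'' + 1) v) :=
          (hHIL V n A hA.le).2.2.2.2.2.2.2.2.2 A' _ hAA'
        linarith)
      hfU hg'0.le
      (by
        have h1 : 2 * (j : ℝ) * Real.sqrt r ≤ 1 / 8 := by
          have h2 : Real.sqrt r ≤ 1 / (16 * K) := by
            apply Real.sqrt_le_iff.2
            refine ⟨by positivity, ?_⟩
            have h3 : (1 / (16 * (K : ℝ))) ^ 2 = 1 / (256 * (K : ℝ) ^ 2) := by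
              field_simp; norm_num
            rw [h3]; linarith
          have h4 : 2 * (j : ℝ) * Real.sqrt r ≤ 2 * K * (1 / (16 * K)) :=
            mul_le_mul (by linarith) h2 (Real.sqrt_nonneg _) (by positivity)
          have h5 : 2 * (K : ℝ) * (1 / (16 * K)) = 1 / 8 := by field_simp; norm_num
          linarith
        have h6 : (j : ℝ) * (4 * g' ^ 2) ≤ 1 / 8 := by
          have h7 : (j : ℝ) * (4 * g' ^ 2) ≤ K * (4 * (121 * τ)) :=
            mul_le_mul hjKr (by linarith) (by positivity) (by positivity)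
          nlinarith
        have h8 : (j : ℝ) * (4 / (A' * ε)) ≤ 1 / 8 := by
          have h9 : 4 / (A' * ε) = 4 * s / ε := by rw [hA']; field_simp
          rw [h9]
          have h10 : 4 * s / ε ≤ 1 / (8 * K) := by
            rw [div_le_div_iff₀ hε (by positivity)]
            have h11 := hss.trans hsm2
            rw [le_div_iff₀ (by positivity)] at h11
            linarith
          have h12 : (j : ℝ) * (4 * s / ε) ≤ K * (1 / (8 * K)) :=
            mul_le_mul hjKr h10 (by positivity) (by positivity)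
          have h13 : (K : ℝ) * (1 / (8 * K)) = 1 / 8 := by field_simp
          linarith
        rw [mul_add]
        linarith)
    refine ⟨Fin.snoc f y, ?_, ?_, ?_⟩
    · intro i i' h
      induction i using Fin.lastCases with
      | last =>
        induction i' using Fin.lastCases with
        | last => rfl
        | cast i' =>
          rw [Fin.snoc_last, Fin.snoc_castSucc] at h
          exact absurd h.symm (hyne i')
      | cast i =>
        induction i' using Fin.lastCases with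
        | last =>
          rw [Fin.snoc_last, Fin.snoc_castSucc] at h
          exact absurd h (hyne i)
        | cast i' =>
          rw [Fin.snoc_castSucc, Fin.snoc_castSucc] at h
          rw [hf h]
    · intro i
      induction i using Fin.lastCases with
      | last => rw [Fin.snoc_last]; exact hyU
      | cast i =>
        rw [Fin.snoc_castSucc]
        have := hfU i
        unfold Ug at this
        exact hBU (Finset.mem_filter.1 this).1
    · intro i i' hii
      induction i' using Fin.lastCases with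
      | last =>
        induction i using Fin.lastCases with
        | last => exact absurd hii (lt_irrefl _)
        | cast i =>
          rw [Fin.snoc_last, Fin.snoc_castSucc]
          exact hyL i
      | cast i' =>
        induction i using Fin.lastCases with
        | last => exact absurd hii (not_lt.2 (Fin.le_last _))
        | cast i =>
          rw [Fin.snoc_castSucc, Fin.snoc_castSucc]
          exact hfL i i' (by simpa using hii)

end Pool.MAD
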