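/-
helper74. Mader's conjecture for subdivisions of transitive tournaments with an explicit bound.
-/
import Pool.Agent.H20.MAD.Main
import Pool.Agent.H74.MAX.IND

set_option autoImplicit false

namespace Pool.MAD

open Finset
open scoped Classical

theorem bx_val (K : ℕ) (hK : 1 ≤ K) :
    8 / bx K ^ 2 = 8 * 80000 ^ 2 * (64 * 16000000) ^ 8 * (K : ℝ) ^ 16 := by
  have hK0 : (0 : ℝ) < K := by exact_mod_cast hK
  unfold bx
  field_simp
  norm_num

theorem num_bd (k : ℕ) (hk : 1 ≤ k) :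
    32 * (8 / bx k ^ 2) ^ k ≤
      ((10 ^ 6 * k) ^ (16 * k) : ℕ) * (1 / (512 * (k : ℝ) * ((k : ℝ) + 1) ^ 6)) := by
  have hk0 : (0 : ℝ) < k := by exact_mod_cast hk
  rw [bx_val k hk, mul_one_div, le_div_iff₀ (by positivity)]
  have h2 : (k : ℝ) + 1 ≤ 2 ^ k := by
    have := Nat.lt_two_pow_self (n := k)
    exact_mod_cast this
  have h3 : (k : ℝ) ≤ 2 ^ k := by linarith
  have h4 : (k : ℝ) * ((k : ℝ) + 1) ^ 6 ≤ 2 ^ k * (2 ^ k) ^ 6 :=
    mul_le_mul h3 (pow_le_pow_left₀ (by positivity) h2 6) (by positivity) (by positivity)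
  have h5 : (2 : ℝ) ^ k * (2 ^ k) ^ 6 = (128 : ℝ) ^ k := by
    rw [← pow_mul, ← pow_add, show k + k * 6 = 7 * k by ring, pow_mul]; norm_num
  have h6 : (16384 : ℝ) ≤ 16384 ^ k := by
    calc (16384 : ℝ) = 16384 ^ 1 := by norm_num
      _ ≤ 16384 ^ k := pow_le_pow_right₀ (by norm_num) hk
  push_cast
  calc 32 * (8 * 80000 ^ 2 * (64 * 16000000) ^ 8 * (k : ℝ) ^ 16) ^ k *
        (512 * (k : ℝ) * ((k : ℝ) + 1) ^ 6)
      = 16384 * ((k : ℝ) * ((k : ℝ) + 1) ^ 6) *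
        (8 * 80000 ^ 2 * (64 * 16000000) ^ 8 * (k : ℝ) ^ 16) ^ k := by ring
    _ ≤ 16384 ^ k * 128 ^ k * (8 * 80000 ^ 2 * (64 * 16000000) ^ 8 * (k : ℝ) ^ 16) ^ k := by
        refine mul_le_mul_of_nonneg_right ?_ (by positivity)
        exact mul_le_mul h6 (h4.trans h5.le) (by positivity) (by norm_num)
    _ = (16384 * 128 * (8 * 80000 ^ 2 * (64 * 16000000) ^ 8 * (k : ℝ) ^ 16)) ^ k := by
        rw [← mul_pow, ← mul_pow]
    _ ≤ ((10 ^ 6 * (k : ℝ)) ^ 16) ^ k := by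
        refine pow_le_pow_left₀ (by positivity) ?_ k
        have h7 : (0 : ℝ) ≤ (k : ℝ) ^ 16 := by positivity
        have h8 : (10 ^ 6 * (k : ℝ)) ^ 16 = (10 : ℝ) ^ 96 * (k : ℝ) ^ 16 := by
          rw [mul_pow]; norm_num
        rw [h8, ← mul_assoc]
        refine mul_le_mul_of_nonneg_right ?_ h7
        norm_num
    _ = (1000000 * (k : ℝ)) ^ (16 * k) := by
        rw [← pow_mul, show (10 : ℝ) ^ 6 = 1000000 by norm_num]

/-- Mader's conjecture with an explicit bound -/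
theorem mader_explicit (k : ℕ) (hk : 1 ≤ k) (V : Type) [Fintype V] [Nonempty V] (G : Digraph V)
    (hdeg : ∀ v : V, (10 ^ 6 * k) ^ (16 * k) ≤ {w : V | w ≠ v ∧ G.Adj v w}.ncard) :
      ∃ f : Fin k → V, Function.Injective f ∧
        ∃ L : Fin k → Fin k → ℕ, ∃ p : Fin k → Fin k → ℕ → V,
          (∀ i j : Fin k, i < j →
              p i j 0 = f i ∧ p i j (L i j) = f j ∧
              (∀ t : ℕ, t < L i j → G.Adj (p i j t) (p i j (t + 1))) ∧
              (∀ s t : ℕ, s ≤ L i j → t ≤ L i j → p i j s = p i j t → s = t) ∧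
              (∀ (t : ℕ) (m : Fin k), 0 < t → t < L i j → p i j t ≠ f m)) ∧
          (∀ i j i' j' : Fin k, i < j → i' < j' → (i ≠ i' ∨ j ≠ j') →
              ∀ s t : ℕ, 0 < s → s < L i j → 0 < t → t < L i' j' →
                p i j s ≠ p i' j' t) := by
  have hk0 : (0 : ℝ) < k := by exact_mod_cast hk
  have hk1 : (1 : ℝ) ≤ k := by exact_mod_cast hk
  obtain ⟨s, hs⟩ : ∃ s : ℝ, s = 1 / (512 * (k : ℝ) * ((k : ℝ) + 1) ^ 6) := ⟨_, rfl⟩
  have hs0 : 0 < s := by rw [hs]; positivity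
  have hp1 : (1 : ℝ) ≤ ((k : ℝ) + 1) ^ 6 := one_le_pow₀ (by linarith)
  have hs1 : s ≤ 1 := by
    rw [hs, div_le_one (by positivity)]
    nlinarith
  have hsm : s ≤ min (1 / (256 * (k : ℝ) ^ 2)) ((1 / (16 * ((k : ℝ) + 1) ^ 6)) / (32 * k)) := by
    refine le_min ?_ ?_
    · rw [hs]
      refine one_div_le_one_div_of_le (by positivity) ?_
      have h1 : (k : ℝ) ≤ ((k : ℝ) + 1) ^ 6 := by
        calc (k : ℝ) ≤ ((k : ℝ) + 1) ^ 1 := by linarith
          _ ≤ ((k : ℝ) + 1) ^ 6 := pow_le_pow_right₀ (by linarith) (by norm_num)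
      nlinarith
    · rw [hs, div_div]
      apply le_of_eq
      congr 1
      ring
  obtain ⟨N, hN⟩ : ∃ N : V → Finset V, ∀ v w, w ∈ N v ↔ (w ≠ v ∧ G.Adj v w) :=
    ⟨fun v => univ.filter (fun w => w ≠ v ∧ G.Adj v w), fun v w => by simp⟩
  have hcard : ∀ v, (10 ^ 6 * k) ^ (16 * k) ≤ (N v).card := by
    intro v
    have h1 : {w : V | w ≠ v ∧ G.Adj v w} = (N v : Set V) := by
      ext w; simp [hN]
    have := hdeg v
    rwa [h1, Set.ncard_coe_finset] at this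
  have hne : ∀ x, (N x).Nonempty := fun x => by
    rw [← Finset.card_pos]
    have h1 : 0 < (10 ^ 6 * k) ^ (16 * k) := by positivity
    exact h1.trans_le (hcard x)
  have hV : 1 ≤ Fintype.card V := Fintype.card_pos
  have hVr : (1 : ℝ) ≤ Fintype.card V := by exact_mod_cast hV
  obtain ⟨v₀⟩ := (inferInstance : Nonempty V)
  have hM : MINStmt := t_min
  obtain ⟨f, hf, -, hL⟩ := t_indx (a_lvl hM (t_tgt t_cnt)) (a_ric hM) (a_gua hM) (a_stp hM) hM
    t_hil t_wlk k (1 / (16 * ((k : ℝ) + 1) ^ 6)) hk (by positivity) k hk le_rfl V N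
    (Fintype.card V) ((10 ^ 6 * k) ^ (16 * k)) 1 s univ univ
    (Fintype.card V) hne hcard hV le_rfl (le_refl _) one_pos hs0 (by linarith) hsm
    (by rw [hs]; exact num_bd k hk)
    ⟨v₀, mem_univ _, by
      have h1 := t_grw t_cnt t_wlk hM V N (Fintype.card V) 1 (Fintype.card V) v₀ hne zero_le_one hV
      by_contra h2
      push Not at h2
      nlinarith [sq_nonneg ((Fintype.card V : ℝ) - 1)]⟩
    (by
      intro u _ T' _ Q hQ _
      rw [Finset.filter_eq_empty_iff.2 (by simp)]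
      simp)
  have hT := t_gre V N k f hf hL
  obtain ⟨f', hf', L, p, h1, h2⟩ := hT
  refine ⟨f', hf', L, p, ?_, h2⟩
  intro i j hij
  obtain ⟨a, b, c, d, e⟩ := h1 i j hij
  exact ⟨a, b, fun t ht => ((hN _ _).1 (c t ht)).2, d, e⟩

end Pool.MAD
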